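import Mathlib

/-!
# Primitive morphisms fixing binary generalized pseudostandard words (MP_b60f05, Q1)

The fixed point of the primitive morphism `φ_1 ∘ φ_2` starting with `0` is an aperiodic
generalized pseudostandard word which is not standard Sturmian and is not fixed by any `φ_k`.
-/

set_option autoImplicit false

namespace Pool.Agent.Results.MP_b60f05_co.Pseudostandard

/-- The two antimorphisms. -/
inductive Anti
  | E
  | R

/-- The action of `E` (reversal and exchange of letters) and `R` (reversal) on finite words over
`{0, 1}` (`0 = false`, `1 = true`). -/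
def Anti.act : Anti → List Bool → List Bool
  | Anti.E, w => (w.map not).reverse
  | Anti.R, w => w.reverse

/-- `P` is the shortest `t`-palindrome having `z` as a prefix. -/
def IsClosure (t : Anti) (z P : List Bool) : Prop :=
  t.act P = P ∧ z <+: P ∧ ∀ Q, t.act Q = Q → z <+: Q → P.length ≤ Q.length

/-- The finite word `v` is a prefix of the infinite word `w`. -/
def Pref (v : List Bool) (w : ℕ → Bool) : Prop := ∀ i (h : i < v.length), w i = v[i]

/-- `u = u(D, T)`, where `D n` and `T n` are the terms number `n + 1` of the directive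
bi-sequence. -/
def IsPseudostandard (D : ℕ → Bool) (T : ℕ → Anti) (u : ℕ → Bool) : Prop :=
  ∃ W : ℕ → List Bool, W 0 = [] ∧ (∀ n, IsClosure (T n) (W n ++ [D n]) (W (n + 1))) ∧
    ∀ n, Pref (W n) u

/-- `u` is not of the form `w v^ω`. -/
def Aperiodic (u : ℕ → Bool) : Prop := ¬ ∃ N p, 0 < p ∧ ∀ i, N ≤ i → u (i + p) = u i

/-- `u` is a standard Sturmian word. -/
def StandardSturmian (u : ℕ → Bool) : Prop :=
  Aperiodic u ∧ ∃ D, IsPseudostandard D (fun _ => Anti.R) u

/-- The iterates of the morphism with letter images `φ`. -/
def iter (φ : Bool → List Bool) : ℕ → List Bool → List Bool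
  | 0, w => w
  | n + 1, w => (iter φ n w).flatMap φ

/-- `φ` is primitive. -/
def Primitive (φ : Bool → List Bool) : Prop := ∃ n, 1 ≤ n ∧ ∀ x y : Bool, y ∈ iter φ n [x]

/-- `φ(u) = u`. -/
def Fixed (φ : Bool → List Bool) (u : ℕ → Bool) : Prop :=
  (∀ n, Pref (((List.range n).map u).flatMap φ) u) ∧
    ∀ N, ∃ n, N ≤ (((List.range n).map u).flatMap φ).length

/-- `φ_k : 0 ↦ 0(110)^k, 1 ↦ 1(001)^k`. -/
def phi (k : ℕ) (x : Bool) : List Bool := x :: (List.replicate k [!x, !x, x]).flatten

/-! ### Reflections -/

/-- the letter map of an antimorphism -/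
def tw : Anti → Bool → Bool
  | Anti.E, x => !x
  | Anti.R, x => x

lemma tw_tw (t : Anti) (x : Bool) : tw t (tw t x) = x := by cases t <;> simp [tw]

lemma act_length (t : Anti) (Q : List Bool) : (t.act Q).length = Q.length := by
  cases t <;> simp [Anti.act]

lemma act_append (t : Anti) (v w : List Bool) : t.act (v ++ w) = t.act w ++ t.act v := by
  cases t <;> simp [Anti.act]

lemma act_getD (t : Anti) (Q : List Bool) (i j : ℕ) (h : i + j + 1 = Q.length) :
    (t.act Q).getD i false = tw t (Q.getD j false) := by
  have hi : i < (t.act Q).length := by rw [act_length]; omega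
  have hj : j < Q.length := by omega
  rw [List.getD_eq_getElem _ _ hi, List.getD_eq_getElem _ _ hj]
  have e : Q.length - 1 - i = j := by omega
  cases t
  · simp only [Anti.act, List.getElem_reverse, List.length_map, List.getElem_map, tw, e]
  · simp only [Anti.act, List.getElem_reverse, tw, e]

lemma act_eq_iff (t : Anti) (Q : List Bool) : t.act Q = Q ↔
    ∀ i j, i + j + 1 = Q.length → Q.getD i false = tw t (Q.getD j false) := by
  constructor
  · intro h i j hij
    rw [← act_getD t Q i j hij, h]
  · intro h
    apply List.ext_getElem (act_length t Q)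
    intro i h1 h2
    rw [← List.getD_eq_getElem _ false, ← List.getD_eq_getElem _ false,
      act_getD t Q i (Q.length - 1 - i) (by omega), ← h i (Q.length - 1 - i) (by omega)]

/-- reflection condition: there is a `t`-palindrome of length `L` with prefix `z` -/
def Rf (t : Anti) (z : List Bool) (L : ℕ) : Prop :=
  z.length ≤ L ∧ ∀ i j, i < z.length → j < z.length → i + j + 1 = L →
    z.getD i false = tw t (z.getD j false)

lemma getD_of_prefix {z Q : List Bool} (h : z <+: Q) {i : ℕ} (hi : i < z.length) :
    Q.getD i false = z.getD i false := by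
  obtain ⟨X, rfl⟩ := h
  rw [List.getD_append _ _ _ _ hi]

lemma rf_of_pal {t : Anti} {z Q : List Bool} (hQ : t.act Q = Q) (hz : z <+: Q) :
    Rf t z Q.length := by
  refine ⟨hz.length_le, fun i j hi hj hij => ?_⟩
  rw [← getD_of_prefix hz hi, ← getD_of_prefix hz hj]
  exact (act_eq_iff t Q).mp hQ i j hij

lemma pal_of_rf {t : Anti} {z : List Bool} {L : ℕ} (h : Rf t z L) (hL : L ≤ 2 * z.length) :
    ∃ Q, t.act Q = Q ∧ z <+: Q ∧ Q.length = L := by
  obtain ⟨h1, h2⟩ := h
  refine ⟨z ++ t.act (z.take (L - z.length)), ?_, List.prefix_append _ _, ?_⟩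
  swap
  · rw [List.length_append, act_length, List.length_take]; omega
  rw [act_eq_iff]
  have hlen : (z ++ t.act (z.take (L - z.length))).length = L := by
    rw [List.length_append, act_length, List.length_take]; omega
  have hlt : (z.take (L - z.length)).length = L - z.length := by
    rw [List.length_take]; omega
  have key : ∀ i j, i + j + 1 = L → ¬ i < z.length → j < z.length →
      (z ++ t.act (z.take (L - z.length))).getD i false = tw t (z.getD j false) := by
    intro i j hij hi hj
    rw [List.getD_append_right _ _ _ _ (by omega),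
      act_getD t _ (i - z.length) j (by rw [hlt]; omega)]
    congr 1
    rw [List.getD_eq_getElem _ _ (by rw [hlt]; omega), List.getD_eq_getElem _ _ hj,
      List.getElem_take]
  intro i j hij
  rw [hlen] at hij
  by_cases hi : i < z.length
  · by_cases hj : j < z.length
    · rw [List.getD_append _ _ _ _ hi, List.getD_append _ _ _ _ hj]
      exact h2 i j hi hj hij
    · rw [key j i (by omega) hj hi, List.getD_append _ _ _ _ hi, tw_tw]
  · have hj : j < z.length := by omega
    rw [key i j hij hi hj, List.getD_append _ _ _ _ hj]

lemma rf_double (t : Anti) (z : List Bool) : Rf t z (2 * z.length) :=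
  ⟨by omega, fun i j hi hj hij => by omega⟩

lemma closure_iff (t : Anti) (z P : List Bool) : IsClosure t z P ↔
    t.act P = P ∧ z <+: P ∧ ∀ L, Rf t z L → P.length ≤ L := by
  constructor
  · rintro ⟨h1, h2, h3⟩
    refine ⟨h1, h2, fun L hL => ?_⟩
    have key : ∀ L, Rf t z L → L ≤ 2 * z.length → P.length ≤ L := by
      intro L hL hL2
      obtain ⟨Q, hQ1, hQ2, hQ3⟩ := pal_of_rf hL hL2
      rw [← hQ3]; exact h3 Q hQ1 hQ2
    by_cases h : L ≤ 2 * z.length
    · exact key L hL h
    · exact (key _ (rf_double t z) le_rfl).trans (by omega)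
  · rintro ⟨h1, h2, h3⟩
    exact ⟨h1, h2, fun Q hQ1 hQ2 => h3 _ (rf_of_pal hQ1 hQ2)⟩

/-! ### The morphism `φ_1 ∘ φ_2` -/

/-- the composition `φ_1 ∘ φ_2` -/
def psi (x : Bool) : List Bool := (phi 2 x).flatMap (phi 1)

/-- the image of `0` -/
def A (r : ℕ) : Bool := (psi false).getD r false

lemma psi_len (x : Bool) : (psi x).length = 28 := by cases x <;> rfl

lemma psi_getD (x : Bool) (r : ℕ) (hr : r < 28) : (psi x).getD r false = xor x (A r) := by
  have : ∀ x : Bool, ∀ r < 28, (psi x).getD r false = xor x (A r) := by decide +kernel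
  exact this x r hr

lemma flat_len (w : List Bool) : (w.flatMap psi).length = 28 * w.length := by
  induction w with
  | nil => rfl
  | cons x w ih => rw [List.flatMap_cons, List.length_append, ih, psi_len, List.length_cons]; ring

lemma flat_getD (w : List Bool) : ∀ (m r : ℕ), m < w.length → r < 28 →
    (w.flatMap psi).getD (28 * m + r) false = xor (w.getD m false) (A r) := by
  induction w with
  | nil => intro m r hm; simp at hm
  | cons x w ih =>
    intro m r hm hr
    rw [List.flatMap_cons]
    cases m with
    | zero =>
      rw [List.getD_append _ _ _ _ (by rw [psi_len]; omega), mul_zero, zero_add,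
        psi_getD _ _ hr]
      rfl
    | succ m =>
      rw [List.getD_append_right _ _ _ _ (by rw [psi_len]; omega), psi_len,
        show 28 * (m + 1) + r - 28 = 28 * m + r by omega,
        ih m r (by simpa using hm) hr, List.getD_cons_succ]

lemma A_zero : A 0 = false := by decide
lemma A_last : A 27 = false := by decide

lemma act_psi (t : Anti) (w : List Bool) : t.act (w.flatMap psi) = (t.act w).flatMap psi := by
  induction w with
  | nil => cases t <;> rfl
  | cons x w ih =>
    rw [List.flatMap_cons, act_append, ih, show x :: w = [x] ++ w from rfl, act_append,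
      List.flatMap_append]
    congr 1
    cases t <;> cases x <;> decide

lemma sync : ∀ y z1 z2 : Bool, ∀ ρ < 28, ρ ≠ 0 →
    ∃ s < 28, xor y (A (27 - s)) ≠ xor (if ρ + s < 28 then z1 else z2) (A ((ρ + s) % 28)) := by
  decide +kernel

lemma short_E : ∀ r0 < 27, xor false (A r0) = !true →
    ∃ s < 28, r0 < s ∧ xor false (A s) ≠ !(xor false (A (28 + r0 - s))) := by
  decide +kernel

lemma short_R : ∀ r0 < 27, xor true (A r0) = true →
    ∃ s < 28, r0 < s ∧ xor true (A s) ≠ xor true (A (28 + r0 - s)) := by
  decide +kernel

/-! ### Closures and the morphism -/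

lemma z_lt (w : List Bool) (m r : ℕ) (hm : m < w.length) (hr : r < 28) :
    (w.flatMap psi ++ [true]).getD (28 * m + r) false = xor (w.getD m false) (A r) := by
  rw [List.getD_append _ _ _ _ (by rw [flat_len]; omega), flat_getD _ _ _ hm hr]

lemma z_last (w : List Bool) :
    (w.flatMap psi ++ [true]).getD (28 * w.length) false = true := by
  rw [List.getD_append_right _ _ _ _ (by rw [flat_len]), flat_len, Nat.sub_self]
  rfl

lemma aligned {t : Anti} {w : List Bool} {m : ℕ} (hm : m < w.length)
    (h : Rf t (w.flatMap psi ++ [true]) (28 * w.length + 28 * m + 28)) :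
    Rf t (w ++ [true]) (w.length + m + 1) := by
  obtain ⟨-, h2⟩ := h
  have hl : (w.flatMap psi ++ [true]).length = 28 * w.length + 1 := by
    rw [List.length_append, flat_len]; rfl
  rw [hl] at h2
  have e0 : (w ++ [true]).getD w.length false = true := by
    rw [List.getD_append_right _ _ _ _ le_rfl, Nat.sub_self]; rfl
  -- the reflection of the last letter
  have h3 : (w ++ [true]).getD w.length false = tw t ((w ++ [true]).getD m false) := by
    have := h2 (28 * w.length) (28 * m + 27) (by omega) (by omega) (by omega)
    rw [z_last, z_lt w m 27 hm (by omega), A_last, Bool.xor_false] at this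
    rw [e0, List.getD_append _ _ _ _ hm]
    exact this
  refine ⟨by rw [List.length_append, List.length_singleton]; omega, fun i j hi hj hij => ?_⟩
  rw [List.length_append, List.length_singleton] at hi hj
  by_cases hiN : i = w.length
  · have hjm : j = m := by omega
    subst hiN hjm
    exact h3
  by_cases hjN : j = w.length
  · have him : i = m := by omega
    subst hjN him
    rw [h3, tw_tw]
  have := h2 (28 * i + 0) (28 * j + 27) (by omega) (by omega) (by omega)
  rw [z_lt w i 0 (by omega) (by omega), z_lt w j 27 (by omega) (by omega), A_zero, A_last,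
    Bool.xor_false, Bool.xor_false] at this
  rw [List.getD_append _ _ _ _ (by omega), List.getD_append _ _ _ _ (by omega)]
  exact this

lemma step (t : Anti) (w P : List Bool) (hP : IsClosure t (w ++ [true]) P)
    (hP2 : P.length ≤ 2 * w.length)
    (hE : t = Anti.E → w.getD (w.length - 1) false = false)
    (hR : t = Anti.R → w.getD (w.length - 1) false = true ∨ P.length + 1 ≤ 2 * w.length) :
    IsClosure t (w.flatMap psi ++ [true]) (P.flatMap psi) := by
  rw [closure_iff] at hP ⊢
  obtain ⟨h1, h2, h3⟩ := hP
  refine ⟨by rw [act_psi, h1], ?_, fun L hL => ?_⟩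
  · have : (w ++ [true]).flatMap psi <+: P.flatMap psi := by
      obtain ⟨X, rfl⟩ := h2
      rw [List.flatMap_append (xs := w ++ [true])]
      exact List.prefix_append _ _
    refine List.IsPrefix.trans ?_ this
    rw [List.flatMap_append, List.prefix_append_right_inj]
    decide
  · rw [flat_len]
    by_contra hc
    rw [not_le] at hc
    have hlen : (w.flatMap psi ++ [true]).length = 28 * w.length + 1 := by
      rw [List.length_append, flat_len]; rfl
    have hL1 := hL.1
    have hL2 := hL.2
    rw [hlen] at hL1 hL2
    obtain ⟨e, he⟩ : ∃ e, L = 28 * w.length + e + 1 := ⟨L - 1 - 28 * w.length, by omega⟩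
    obtain ⟨m, r, hr, hmr⟩ : ∃ m r, r < 28 ∧ e = 28 * m + r :=
      ⟨e / 28, e % 28, Nat.mod_lt _ (by omega), by omega⟩
    have hm : m < w.length := by omega
    by_cases hr27 : r = 27
    · subst hr27
      have h4 : Rf t (w.flatMap psi ++ [true]) (28 * w.length + 28 * m + 28) := by
        have : L = 28 * w.length + 28 * m + 28 := by omega
        rwa [this] at hL
      have := h3 _ (aligned hm h4)
      omega
    by_cases hmN : m + 1 = w.length
    · -- the reflection point lies in the last block
      have hc1 := hL2 (28 * w.length) (28 * m + r) (by omega) (by omega) (by omega)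
      rw [z_last, z_lt w m r hm hr] at hc1
      have hc2 : ∀ s < 28, r < s → xor (w.getD m false) (A s) =
          tw t (xor (w.getD m false) (A (28 + r - s))) := by
        intro s hs hrs
        have := hL2 (28 * m + s) (28 * m + (28 + r - s)) (by omega) (by omega) (by omega)
        rwa [z_lt w m s hm hs, z_lt w m _ hm (by omega)] at this
      have hlast : w.length - 1 = m := by omega
      rw [hlast] at hE hR
      cases t
      · rw [hE rfl] at hc1 hc2
        obtain ⟨s, hs1, hs2, hs3⟩ := short_E r (by omega) (by
          simp only [tw] at hc1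
          cases hh : xor false (A r)
          · rfl
          · rw [hh] at hc1; exact absurd hc1 (by decide))
        exact hs3 (hc2 s hs1 hs2)
      · rcases hR rfl with hR | hR
        · rw [hR] at hc1 hc2
          obtain ⟨s, hs1, hs2, hs3⟩ := short_R r (by omega) hc1.symm
          exact hs3 (hc2 s hs1 hs2)
        · omega
    · -- a full block is reflected to a non-aligned position
      have hsync : ∀ s < 28, xor (w.getD (w.length - 1) false) (A (27 - s)) =
          tw t (xor (if r + 1 + s < 28 then w.getD m false else w.getD (m + 1) false)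
            (A ((r + 1 + s) % 28))) := by
        intro s hs
        have := hL2 (28 * (w.length - 1) + (27 - s)) (28 * m + (r + 1 + s)) (by omega) (by omega)
          (by omega)
        rw [z_lt w _ _ (by omega) (by omega)] at this
        rw [this]
        congr 1
        split_ifs with h
        · rw [z_lt w m _ hm h, Nat.mod_eq_of_lt h]
        · rw [show 28 * m + (r + 1 + s) = 28 * (m + 1) + (r + 1 + s - 28) by omega,
            z_lt w (m + 1) _ (by omega) (by omega)]
          congr 2; omega
      cases t
      · obtain ⟨s, hs1, hs2⟩ := sync (w.getD (w.length - 1) false) (!(w.getD m false))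
          (!(w.getD (m + 1) false)) (r + 1) (by omega) (by omega)
        apply hs2
        rw [hsync s hs1]
        split_ifs <;> simp [tw]
      · obtain ⟨s, hs1, hs2⟩ := sync (w.getD (w.length - 1) false) (w.getD m false)
          (w.getD (m + 1) false) (r + 1) (by omega) (by omega)
        exact hs2 (hsync s hs1)

/-! ### The infinite word -/

/-- The fixed point of `φ_1 ∘ φ_2` starting with `0`. -/
def fix : ℕ → Bool
  | 0 => false
  | n + 1 => xor (fix ((n + 1) / 28)) (A ((n + 1) % 28))
decreasing_by omega

lemma fix_eq (k r : ℕ) (hr : r < 28) : fix (28 * k + r) = xor (fix k) (A r) := by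
  rcases Nat.eq_zero_or_pos (28 * k + r) with h | h
  · have hk : k = 0 := by omega
    have hr : r = 0 := by omega
    subst hk hr
    rw [h, fix, A_zero]; rfl
  · obtain ⟨n, hn⟩ : ∃ n, 28 * k + r = n + 1 := ⟨28 * k + r - 1, by omega⟩
    rw [hn, fix]
    have h1 : (n + 1) / 28 = k := by omega
    have h2 : (n + 1) % 28 = r := by omega
    rw [h1, h2]

lemma Pref.of_prefix {v v' : List Bool} {w : ℕ → Bool} (h : Pref v' w) (hv : v <+: v') :
    Pref v w := by
  intro i hi
  rw [h i (lt_of_lt_of_le hi hv.length_le)]
  exact (hv.getElem hi).symm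

lemma pref_psi {v : List Bool} (h : Pref v fix) : Pref (v.flatMap psi) fix := by
  intro i hi
  rw [flat_len] at hi
  rw [← List.getD_eq_getElem _ false]
  conv_lhs => rw [show i = 28 * (i / 28) + i % 28 by omega]
  conv_rhs => rw [show i = 28 * (i / 28) + i % 28 by omega]
  rw [fix_eq _ _ (by omega), flat_getD _ _ _ (by omega) (by omega), h _ (by omega),
    List.getD_eq_getElem]

/-- The prefixes of the construction. -/
def W : ℕ → List Bool
  | 0 => []
  | 1 => [false]
  | 2 => [false, true]
  | 3 => [false, true, true, false]
  | 4 => [false, true, true, false, true, false, false, true]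
  | 5 => [false, true, true, false, true, false, false, true, true, false, false, true, false,
      true, true, false]
  | n + 6 => (W (n + 1)).flatMap psi

/-- The directive sequence `R (E R E R R)^ω`. -/
def T (n : ℕ) : Anti :=
  if n = 0 then Anti.R else if n % 5 = 1 ∨ n % 5 = 3 then Anti.E else Anti.R

/-- The directive sequence `0 1^ω`. -/
def D (n : ℕ) : Bool := decide (n ≠ 0)

lemma pref_one : Pref (W 1) fix := by
  intro i hi
  have : i = 0 := by simp only [W, List.length_singleton] at hi; omega
  subst this
  rw [fix]; rfl

lemma pref_W (n : ℕ) : Pref (W n) fix := by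
  have h6 : Pref (W 6) fix := pref_psi pref_one
  induction n using Nat.strong_induction_on with
  | _ n ih =>
    match n, ih with
    | 0, _ => exact h6.of_prefix (by decide)
    | 1, _ => exact pref_one
    | 2, _ => exact h6.of_prefix (by decide)
    | 3, _ => exact h6.of_prefix (by decide)
    | 4, _ => exact h6.of_prefix (by decide)
    | 5, _ => exact h6.of_prefix (by decide)
    | n + 6, ih => exact pref_psi (ih (n + 1) (by omega))

lemma base_check (t : Anti) (z P : List Bool) (h1 : t.act P = P) (h2 : z <+: P)
    (h3 : ∀ L < P.length, z.length ≤ L → ∃ i < z.length, ∃ j < z.length,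
      i + j + 1 = L ∧ z.getD i false ≠ tw t (z.getD j false)) : IsClosure t z P := by
  rw [closure_iff]
  refine ⟨h1, h2, fun L hL => ?_⟩
  by_contra hc
  obtain ⟨i, hi, j, hj, hij, hne⟩ := h3 L (by omega) hL.1
  exact hne (hL.2 i j hi hj hij)

/-- The induction hypothesis on the prefixes. -/
def Inv (m : ℕ) : Prop :=
  IsClosure (T m) (W m ++ [true]) (W (m + 1)) ∧ (W (m + 1)).length ≤ 2 * (W m).length ∧
  (T m = Anti.E → (W m).getD ((W m).length - 1) false = false) ∧
  (T m = Anti.R → (W m).getD ((W m).length - 1) false = true ∨
    (W (m + 1)).length + 1 ≤ 2 * (W m).length)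

lemma last_psi (w : List Bool) (hw : 1 ≤ w.length) :
    (w.flatMap psi).getD ((w.flatMap psi).length - 1) false = w.getD (w.length - 1) false := by
  rw [flat_len, show 28 * w.length - 1 = 28 * (w.length - 1) + 27 by omega,
    flat_getD _ _ _ (by omega) (by omega), A_last, Bool.xor_false]

lemma W_pos (m : ℕ) (hm : 1 ≤ m) : 1 ≤ (W m).length := by
  induction m using Nat.strong_induction_on with
  | _ m ih =>
    match m, ih, hm with
    | 0, _, hm => omega
    | 1, _, _ => decide
    | 2, _, _ => decide
    | 3, _, _ => decide
    | 4, _, _ => decide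
    | 5, _, _ => decide
    | n + 6, ih, _ =>
      have := ih (n + 1) (by omega) (by omega)
      rw [W, flat_len]; omega

lemma T_add (m : ℕ) (hm : 1 ≤ m) : T (m + 5) = T m := by
  unfold T
  rw [if_neg (show ¬ m + 5 = 0 by omega), if_neg (show ¬ m = 0 by omega), Nat.add_mod_right]

lemma W_add (m : ℕ) (hm : 1 ≤ m) : W (m + 5) = (W m).flatMap psi := by
  obtain ⟨k, rfl⟩ : ∃ k, m = k + 1 := ⟨m - 1, by omega⟩
  rfl

lemma inv_step (m : ℕ) (hm : 1 ≤ m) (h : Inv m) : Inv (m + 5) := by
  obtain ⟨h1, h2, h3, h4⟩ := h
  have hp := W_pos m hm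
  unfold Inv
  rw [T_add m hm, show m + 5 + 1 = (m + 1) + 5 by ring, W_add m hm, W_add (m + 1) (by omega),
    last_psi _ hp, flat_len, flat_len]
  refine ⟨step _ _ _ h1 h2 h3 h4, by omega, h3, fun hR => ?_⟩
  rcases h4 hR with h | h
  · exact Or.inl h
  · exact Or.inr (by omega)

lemma inv_base1 : Inv 1 :=
  ⟨base_check Anti.E _ _ rfl (by decide) (by decide +kernel), by decide, fun _ => by decide,
    fun h => (by cases h)⟩

lemma inv_base2 : Inv 2 :=
  ⟨base_check Anti.R _ _ rfl (by decide) (by decide +kernel), by decide,
    fun h => (by cases h), fun _ => Or.inl (by decide)⟩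

lemma inv_base3 : Inv 3 :=
  ⟨base_check Anti.E _ _ rfl (by decide) (by decide +kernel), by decide, fun _ => by decide,
    fun h => (by cases h)⟩

lemma inv_base4 : Inv 4 :=
  ⟨base_check Anti.R _ _ rfl (by decide) (by decide +kernel), by decide,
    fun h => (by cases h), fun _ => Or.inl (by decide)⟩

lemma inv_base5 : Inv 5 :=
  ⟨base_check Anti.R _ _ rfl (by decide) (by decide +kernel), by decide,
    fun h => (by cases h), fun _ => Or.inr (by decide)⟩

lemma inv_all (m : ℕ) (hm : 1 ≤ m) : Inv m := by
  induction m using Nat.strong_induction_on with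
  | _ m ih =>
    match m, ih, hm with
    | 0, _, hm => omega
    | 1, _, _ => exact inv_base1
    | 2, _, _ => exact inv_base2
    | 3, _, _ => exact inv_base3
    | 4, _, _ => exact inv_base4
    | 5, _, _ => exact inv_base5
    | n + 6, ih, _ => exact inv_step (n + 1) (by omega) (ih (n + 1) (by omega) (by omega))

lemma fix_pseudostandard : IsPseudostandard D T fix := by
  refine ⟨W, rfl, fun n => ?_, pref_W⟩
  rcases Nat.eq_zero_or_pos n with rfl | hn
  · exact base_check Anti.R _ _ rfl (by decide) (by decide +kernel)
  · have : D n = true := by unfold D; simp; omega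
    rw [this]
    exact (inv_all n hn).1

lemma pref_map (w : ℕ → Bool) (n : ℕ) : Pref ((List.range n).map w) w := by
  intro i hi
  simp

lemma fix_fixed : Fixed psi fix := by
  refine ⟨fun n => pref_psi (pref_map fix n), fun N => ⟨N, ?_⟩⟩
  rw [flat_len, List.length_map, List.length_range]; omega

lemma psi_primitive : Primitive psi := by
  refine ⟨1, le_rfl, ?_⟩
  intro x y
  have : ∀ x y : Bool, y ∈ psi x := by decide
  simpa [iter] using this x y

lemma A_pal : ∀ s < 28, A (27 - s) = A s := by decide +kernel

lemma fix_aperiodic : Aperiodic fix := by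
  rintro ⟨N, p, hp, h⟩
  induction p using Nat.strong_induction_on with
  | _ p ih =>
    by_cases hr : p % 28 = 0
    · refine ih (p / 28) (by omega) (by omega) fun i hi => ?_
      have h1 := h (28 * i) (by omega)
      have h2 := fix_eq i 0 (by omega)
      have h3 := fix_eq (i + p / 28) 0 (by omega)
      rw [A_zero, Bool.xor_false, add_zero] at h2 h3
      rw [← h2, ← h3, show 28 * (i + p / 28) = 28 * i + p by omega]
      exact h1
    · obtain ⟨s, hs1, hs2⟩ := sync (fix N) (fix (N + p / 28)) (fix (N + p / 28 + 1)) (p % 28)
        (by omega) hr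
      apply hs2
      rw [A_pal s hs1, ← fix_eq N s hs1, ← h (28 * N + s) (by omega)]
      split_ifs with h1
      · rw [Nat.mod_eq_of_lt h1, ← fix_eq _ _ h1]
        congr 1; omega
      · rw [← fix_eq _ _ (by omega)]
        congr 1; omega

lemma fix_val (i : ℕ) (hi : i < 28) : fix i = A i := by
  have h := fix_eq 0 i hi
  have h0 : fix 0 = false := by rw [fix]
  rwa [mul_zero, zero_add, h0, Bool.false_xor] at h

/-! ### Standard Sturmian words -/

/-- no two consecutive letters `1` -/
def NoOnes (v : List Bool) : Prop :=
  ∀ i, i + 1 < v.length → ¬ (v.getD i false = true ∧ v.getD (i + 1) false = true)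

lemma not_sturmian : ¬ StandardSturmian fix := by
  rintro ⟨-, D', V, h0, h1, h2⟩
  have hlen : ∀ n, n ≤ (V n).length := by
    intro n
    induction n with
    | zero => omega
    | succ n ih =>
      have := (h1 n).2.1.length_le
      rw [List.length_append, List.length_singleton] at this
      omega
  have hhead : ∀ n, 1 ≤ n → (V n).getD 0 false = false := by
    intro n hn
    have h3 := hlen n
    rw [List.getD_eq_getElem _ _ (by omega), ← h2 n 0 (by omega), fix_val 0 (by omega), A_zero]
  have hno : ∀ n, NoOnes (V (n + 1)) := by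
    have hz : ∀ n, NoOnes (V n ++ [D' n]) → NoOnes (V (n + 1)) := by
      intro n hz
      obtain ⟨c1, c2, c3⟩ := (closure_iff _ _ _).mp (h1 n)
      have hpal := (act_eq_iff _ _).mp c1
      simp only [tw] at hpal
      have hzl : (V n ++ [D' n]).length = (V n).length + 1 := by
        rw [List.length_append, List.length_singleton]
      have hle : (V (n + 1)).length ≤ 2 * (V n).length + 1 := by
        apply c3
        refine ⟨by omega, fun i j hi hj hij => ?_⟩
        rw [hzl] at hi hj
        have : i = j := by omega
        rw [this]; rfl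
      intro i hi hc
      by_cases hi2 : i + 1 < (V n ++ [D' n]).length
      · rw [getD_of_prefix c2 (by omega), getD_of_prefix c2 hi2] at hc
        exact hz i hi2 hc
      · rw [hzl] at hi2
        have e1 := hpal i ((V (n + 1)).length - 1 - i) (by omega)
        have e2 := hpal (i + 1) ((V (n + 1)).length - 1 - (i + 1)) (by omega)
        rw [e1, e2, getD_of_prefix c2 (by rw [hzl]; omega),
          getD_of_prefix c2 (by rw [hzl]; omega)] at hc
        refine hz ((V (n + 1)).length - 1 - (i + 1)) (by rw [hzl]; omega) ⟨hc.2, ?_⟩
        rw [show (V (n + 1)).length - 1 - (i + 1) + 1 = (V (n + 1)).length - 1 - i by omega]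
        exact hc.1
    intro n
    induction n with
    | zero =>
      apply hz
      rw [h0]
      intro i hi
      simp at hi
    | succ n ih =>
      apply hz
      intro i hi hc
      rw [List.length_append, List.length_singleton] at hi
      by_cases hi2 : i + 1 < (V (n + 1)).length
      · rw [List.getD_append _ _ _ _ (by omega), List.getD_append _ _ _ _ hi2] at hc
        exact ih i hi2 hc
      · have hi3 : i < (V (n + 1)).length := by omega
        rw [List.getD_append _ _ _ _ hi3] at hc
        have hpal := (act_eq_iff _ _).mp (h1 n).1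
        simp only [tw] at hpal
        have := hpal i 0 (by omega)
        rw [hhead (n + 1) (by omega)] at this
        rw [this] at hc
        exact absurd hc.1 (by decide)
  have h3 : 3 ≤ (V (2 + 1)).length := hlen 3
  have h3' : 3 ≤ (V 3).length := hlen 3
  refine hno 2 1 (by omega) ?_
  rw [List.getD_eq_getElem _ _ (by omega), List.getD_eq_getElem _ _ (by omega),
    ← h2 3 1 (by omega), ← h2 3 2 (by omega), fix_val 1 (by omega), fix_val 2 (by omega)]
  decide

/-! ### The morphisms `φ_k` -/

lemma not_fixed (k : ℕ) (hk : 1 ≤ k) : ¬ Fixed (phi k) fix := by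
  rintro ⟨h, -⟩
  by_cases hk1 : k = 1
  · subst hk1
    have e : (List.range 6).map fix = (List.range 6).map A := by
      apply List.map_congr_left
      intro i hi
      rw [List.mem_range] at hi
      exact fix_val i (by omega)
    have h6 := h 6
    rw [e] at h6
    have h7 := h6 20 (by decide)
    rw [fix_val 20 (by omega)] at h7
    revert h7
    decide
  · obtain ⟨j, rfl⟩ : ∃ j, k = j + 2 := ⟨k - 2, by omega⟩
    have h1 := h 1
    have e : (List.range 1).map fix = [false] := by
      simp [fix_val 0 (by omega), A_zero]
    rw [e] at h1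
    have hp : [false, true, true, false, true, true, false] <+: [false].flatMap (phi (j + 2)) := by
      refine ⟨(List.replicate j [true, true, false]).flatten, ?_⟩
      simp [phi, List.replicate_succ]
    have h2 := h1.of_prefix hp 5 (by decide)
    rw [fix_val 5 (by omega)] at h2
    revert h2
    decide

/-- **MP_b60f05, Q1 (disproof).** There is an aperiodic binary generalized pseudostandard word
which is not standard Sturmian and is fixed by a primitive morphism but by none of the
morphisms `φ_k`, `k ≥ 1`. -/
theorem result : ∃ u : ℕ → Bool, Aperiodic u ∧ (∃ D T, IsPseudostandard D T u) ∧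
    ¬ StandardSturmian u ∧ (∃ φ, Primitive φ ∧ Fixed φ u) ∧ ∀ k, 1 ≤ k → ¬ Fixed (phi k) u :=
  ⟨fix, fix_aperiodic, ⟨D, T, fix_pseudostandard⟩, not_sturmian,
    ⟨psi, psi_primitive, fix_fixed⟩, not_fixed⟩

end Pool.Agent.Results.MP_b60f05_co.Pseudostandard
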